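import Mathlib
import Pool.Agent.Helper793.Rob.Disk

open MeasureTheory Set
open scoped ENNReal NNReal ContDiff
open Pool.Agent.Helper793.Rob

namespace Pool.Agent.Results.MP_5dad96_an.RobinRatio

theorem disk_facts {A : ℝ} (hA : 0 < A) {β : ℝ} (hβ : 0 < β) :
    volume (disk A) = ENNReal.ofReal A ∧ 0 < nu 1 β (disk A) ∧ nu 2 β (disk A) < ⊤ := by
  have hR : 0 < Real.sqrt (A / Real.pi) := Real.sqrt_pos.mpr (by positivity)
  refine ⟨?_, nu_one_ball_pos hR hβ, (nu_two_ball hR β).lt_top⟩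
  unfold disk
  rw [Complex.volume_ball]
  have h1 : (NNReal.pi : ℝ≥0∞) = ENNReal.ofReal Real.pi := by
    rw [ENNReal.ofReal_eq_coe_nnreal Real.pi_pos.le]
    rfl
  rw [h1, ← ENNReal.ofReal_pow hR.le, ← ENNReal.ofReal_mul (by positivity),
    Real.sq_sqrt (by positivity)]
  congr 1
  field_simp

theorem exists_large {A : ℝ} (hA : 0 < A) {β : ℝ} (hβ : 0 < β) (M : ℝ≥0) :
    ∃ (Ω : Set ℂ) (p : ℂ), IsOpen Ω ∧
      Bornology.IsBounded Ω ∧ LipschitzBoundary Ω ∧ p ∈ Ω ∧ StarConvex ℝ p Ω ∧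
      volume Ω = ENNReal.ofReal A ∧
      0 < nu 1 β Ω ∧ nu 2 β Ω < ⊤ ∧ (M : ℝ≥0∞) < nu 2 β Ω / nu 1 β Ω := by
  obtain ⟨K, hK, hKd⟩ := exists_deriv_bound
  set D := K ^ 2 + 6 * β with hD
  have hDpos : 0 < D := by positivity
  have hM : (0:ℝ) ≤ M := M.2
  set s := min (Real.sqrt A / 2) (1 / (4 * D * (M + 1))) with hs
  have hs0 : 0 < s := lt_min (by positivity) (by positivity)
  have hsA : s ^ 2 < A := by
    have h1 : s ≤ Real.sqrt A / 2 := min_le_left _ _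
    have h2 : s ^ 2 ≤ (Real.sqrt A / 2) ^ 2 := pow_le_pow_left₀ hs0.le h1 2
    rw [div_pow, Real.sq_sqrt hA.le] at h2
    linarith
  have hsM : s ≤ 1 / (4 * D * (M + 1)) := min_le_right _ _
  set ρ := min (min (s / 2) (s ^ 2)) (min (s ^ 2 * β) ((A - s ^ 2) / (2 * s))) with hρdef
  have hAs : 0 < A - s ^ 2 := by linarith
  have hρ : 0 < ρ := lt_min (lt_min (by positivity) (by positivity)) (lt_min (by positivity) (by positivity))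
  have hρs : ρ < s := by
    have : ρ ≤ s / 2 := (min_le_left _ _).trans (min_le_left _ _)
    linarith
  have hρ2 : ρ ≤ s ^ 2 := (min_le_left _ _).trans (min_le_right _ _)
  have hρβ : ρ ≤ s ^ 2 * β := (min_le_right _ _).trans (min_le_left _ _)
  have hρA : ρ ≤ (A - s ^ 2) / (2 * s) := (min_le_right _ _).trans (min_le_right _ _)
  set L := s + (A - s ^ 2) / ρ with hL
  have h2L : 2 * s < L := by
    rw [hL]
    have : s < (A - s ^ 2) / ρ := by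
      rw [lt_div_iff₀ hρ]
      rw [le_div_iff₀ (by positivity)] at hρA
      nlinarith
    linarith
  have hsL : s < L := by linarith
  refine ⟨hex s ρ L, ⟨ρ / 2, ρ / 2⟩, isOpen_hex s ρ L, hex_bounded hρ hρs hsL, lipschitz_hex hρ hρs hsL,
    (starConvex_hex hρ hρs hsL).2, (starConvex_hex hρ hρs hsL).1, ?_, nu_one_hex_pos hρ hρs hsL hβ,
    (nu_two_hex_ne_top hρ hρs hsL β).lt_top, ?_⟩
  · rw [volume_hex hρ hρs hsL]
    congr 1
    rw [hL, add_sub_cancel_left, mul_div_cancel₀ _ hρ.ne']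
    ring
  · have h1 := nu_one_hex_le hK hKd hρ hρs h2L hβ hρ2
    have h2 := nu_two_hex hρ hρs hsL hβ hρβ
    have h3 : ENNReal.ofReal (1 / (2 * s ^ 2)) / ENNReal.ofReal (D / s) ≤
        nu 2 β (hex s ρ L) / nu 1 β (hex s ρ L) := ENNReal.div_le_div h2 h1
    refine lt_of_lt_of_le ?_ h3
    rw [← ENNReal.ofReal_div_of_pos (by positivity)]
    rw [← ENNReal.ofReal_coe_nnreal]
    rw [ENNReal.ofReal_lt_ofReal_iff (by positivity)]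
    have h4 : 1 / (2 * s ^ 2) / (D / s) = 1 / (2 * D * s) := by
      field_simp
    rw [h4, lt_div_iff₀ (by positivity)]
    rw [le_div_iff₀ (by positivity)] at hsM
    nlinarith

/-- **Robin eigenvalue ratio.** -/
theorem result :
    (∀ A : ℝ, 0 < A →
      {α : ℝ | α ∈ Set.Ioo (0:ℝ) 1 ∧ ∀ Ω : Set ℂ, IsOpen Ω → Bornology.IsBounded Ω →
        LipschitzBoundary Ω → volume Ω = ENNReal.ofReal A → ratio α Ω ≤ ratio α (disk A)} = ∅) ∧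
    (∀ A : ℝ, 0 < A → ∀ α ∈ Set.Ioo (0:ℝ) 1, ∀ M : ℝ≥0, ∃ (Ω : Set ℂ) (p : ℂ), IsOpen Ω ∧
      Bornology.IsBounded Ω ∧ LipschitzBoundary Ω ∧ p ∈ Ω ∧ StarConvex ℝ p Ω ∧
      volume Ω = ENNReal.ofReal A ∧
      0 < nu 1 (α / (1 - α)) Ω ∧ nu 2 (α / (1 - α)) Ω < ⊤ ∧ (M : ℝ≥0∞) < ratio α Ω) ∧
    (∀ A : ℝ, 0 < A → ∀ α ∈ Set.Ioo (0:ℝ) 1, volume (disk A) = ENNReal.ofReal A ∧
      0 < nu 1 (α / (1 - α)) (disk A) ∧ nu 2 (α / (1 - α)) (disk A) < ⊤) := by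
  have hβ : ∀ α ∈ Set.Ioo (0:ℝ) 1, 0 < α / (1 - α) := by
    intro α hα
    exact div_pos hα.1 (by linarith [hα.2])
  have h2 : ∀ A : ℝ, 0 < A → ∀ α ∈ Set.Ioo (0:ℝ) 1, ∀ M : ℝ≥0, ∃ (Ω : Set ℂ) (p : ℂ), IsOpen Ω ∧
      Bornology.IsBounded Ω ∧ LipschitzBoundary Ω ∧ p ∈ Ω ∧ StarConvex ℝ p Ω ∧
      volume Ω = ENNReal.ofReal A ∧
      0 < nu 1 (α / (1 - α)) Ω ∧ nu 2 (α / (1 - α)) Ω < ⊤ ∧ (M : ℝ≥0∞) < ratio α Ω :=
    fun A hA α hα M => exists_large hA (hβ α hα) M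
  have h3 : ∀ A : ℝ, 0 < A → ∀ α ∈ Set.Ioo (0:ℝ) 1, volume (disk A) = ENNReal.ofReal A ∧
      0 < nu 1 (α / (1 - α)) (disk A) ∧ nu 2 (α / (1 - α)) (disk A) < ⊤ :=
    fun A hA α hα => disk_facts hA (hβ α hα)
  refine ⟨?_, h2, h3⟩
  intro A hA
  rw [Set.eq_empty_iff_forall_notMem]
  rintro α ⟨hα, h⟩
  obtain ⟨hv, hp, ht⟩ := h3 A hA α hα
  have hfin : ratio α (disk A) ≠ ⊤ := ENNReal.div_ne_top ht.ne hp.ne'
  obtain ⟨Ω, p, hΩo, hΩb, hΩL, _, _, hΩv, _, _, hΩM⟩ := h2 A hA α hα (ratio α (disk A)).toNNReal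
  rw [ENNReal.coe_toNNReal hfin] at hΩM
  exact absurd (h Ω hΩo hΩb hΩL hΩv) (not_le.mpr hΩM)

end Pool.Agent.Results.MP_5dad96_an.RobinRatio
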